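import Pool.Agent.BI29.Reduce

set_option autoImplicit false

namespace Pool.Agent.Results.MP_616cb8_al.CommutativeRank

/-- A Bernstein type inequality for filtered deformations in characteristic `p`: the
transcendence degrees of two commutative subalgebras of `A` add up to at most the transcendence
degree of the associated graded domain plus that of the centre of the division ring of fractions
of `A`. -/
theorem result :
    ∀ (p : ℕ) [Fact p.Prime] (k : Type) [Field k] [CharP k p]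
      (A0 : Type) [CommRing A0] [IsDomain A0] [Algebra k A0] [Algebra.FiniteType k A0]
      (𝒜 : ℕ → Submodule k A0) [GradedAlgebra 𝒜]
      (A : Type) [Ring A] [Algebra k A]
      (F : ℕ → Submodule k A) (σ : ℕ → A → A0),
      Monotone F →
      (1 : A) ∈ F 0 →
      (∀ (i j : ℕ) (a b : A), a ∈ F i → b ∈ F j → a * b ∈ F (i + j)) →
      (∀ a : A, ∃ i : ℕ, a ∈ F i) →
      (∀ (i : ℕ) (a : A), a ∈ F i → σ i a ∈ 𝒜 i) →
      (∀ (i : ℕ) (a b : A), a ∈ F i → b ∈ F i → σ i (a + b) = σ i a + σ i b) →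
      (∀ (i : ℕ) (c : k) (a : A), a ∈ F i → σ i (c • a) = c • σ i a) →
      (∀ (i : ℕ) (y : A0), y ∈ 𝒜 i → ∃ a : A, a ∈ F i ∧ σ i a = y) →
      (∀ a : A, a ∈ F 0 → σ 0 a = 0 → a = 0) →
      (∀ (i : ℕ) (a : A), a ∈ F (i + 1) → (σ (i + 1) a = 0 ↔ a ∈ F i)) →
      (∀ (i j : ℕ) (a b : A), a ∈ F i → b ∈ F j →
          σ (i + j) (a * b) = σ i a * σ j b) →
      ∀ (D : Type) [DivisionRing D] [Algebra k D] (j : A →ₐ[k] D),
        Function.Injective j →
        (∀ z : D, ∃ a b : A, b ≠ 0 ∧ z * j b = j a) →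
      ∀ (B : Type) [CommRing B] [Algebra k B] (f : B →ₐ[k] A), Function.Injective f →
      ∀ (B' : Type) [CommRing B'] [Algebra k B'] (f' : B' →ₐ[k] A), Function.Injective f' →
        Algebra.trdeg k B + Algebra.trdeg k B' ≤
          Algebra.trdeg k A0 + Algebra.trdeg k (Subalgebra.center k D) := by
  intro p _ k _ _ A0 _ _ _ _ 𝒜 _ A _ _ F σ h1 h2 h3 h4 h5 h6 h7 h8 h9 h10 h11 D _ _ j hj hfrac
    B _ _ f hf B' _ _ f' hf'
  have hnz : (1 : A) ≠ 0 := by
    intro h0
    obtain ⟨a, _, ha⟩ := h8 0 (1 : A0) SetLike.GradedOne.one_mem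
    have hall : ∀ x : A, x = 0 := fun x => by rw [← mul_one x, h0, mul_zero]
    have h01 := h7 0 0 0 (Submodule.zero_mem _)
    rw [zero_smul, zero_smul] at h01
    rw [hall a, h01] at ha
    exact zero_ne_one ha
  have hfilt : FD29.Filt F σ := ⟨h1, h2, h3, h4, h6, h7, h9, h10, h11, hnz⟩
  have d : FD29.Defo 𝒜 F σ := ⟨hfilt, h5, h8⟩
  exact BI29.main_trdeg d (p := p) j hj hfrac f hf f' hf'

end Pool.Agent.Results.MP_616cb8_al.CommutativeRank
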